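import Pool.Agent.helper40.TW.SpecG

set_option autoImplicit false

open Complex MeasureTheory Metric
open scoped ComplexConjugate ArithmeticFunction.vonMangoldt

namespace Pool.Agent.TWG

theorem TLS_step {lam : ℝ} {k : ℕ} (hk : 2 ≤ k) (hl : 0 < lam) (J : ℕ) :
    (((2 : ℝ) ^ J * lam) ^ k)⁻¹ * ((2 : ℝ) ^ (J + 1) * lam) ≤ 2 * (1 / 2 : ℝ) ^ J * (lam * (lam ^ k)⁻¹) := by
  have h2 : (0 : ℝ) < 2 ^ J := by positivity
  have h1 : (1 : ℝ) ≤ 2 ^ J := one_le_pow₀ (by norm_num)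
  have hlk : 0 < lam ^ k := by positivity
  have h3 : ((2 : ℝ) ^ J) ^ 2 ≤ ((2 : ℝ) ^ J) ^ k := pow_le_pow_right₀ h1 hk
  have h4 : (2 : ℝ) ^ J * (((2 : ℝ) ^ J) ^ k)⁻¹ ≤ (1 / 2 : ℝ) ^ J := by
    have h5 : (1 / 2 : ℝ) ^ J = ((2 : ℝ) ^ J)⁻¹ := by rw [one_div, inv_pow]
    rw [h5, ← div_eq_mul_inv, div_le_iff₀ (by positivity)]
    calc (2 : ℝ) ^ J = ((2 : ℝ) ^ J)⁻¹ * ((2 : ℝ) ^ J) ^ 2 := by field_simp
      _ ≤ _ := mul_le_mul_of_nonneg_left h3 (by positivity)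
  have h6 : (((2 : ℝ) ^ J * lam) ^ k)⁻¹ * ((2 : ℝ) ^ (J + 1) * lam) = 2 * ((2 : ℝ) ^ J * (((2 : ℝ) ^ J) ^ k)⁻¹) * (lam * (lam ^ k)⁻¹) := by
    rw [mul_pow, mul_inv, pow_succ]
    ring
  rw [h6]
  exact mul_le_mul_of_nonneg_right (mul_le_mul_of_nonneg_left h4 (by norm_num)) (by positivity)

theorem TLS : TLS_stmt := by
  intro ι S d m lam A k hk hl hA hS hx
  classical
  have key : ∀ J : ℕ, ∑ i ∈ S with d i ≤ 2 ^ J * lam, m i * ((d i) ^ k)⁻¹ ≤ A * (lam * (lam ^ k)⁻¹) * (4 - 4 * (1 / 2 : ℝ) ^ J) := by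
    intro J
    induction J with
    | zero =>
      have h0 : S.filter (fun i => d i ≤ 2 ^ 0 * lam) = ∅ := by
        rw [Finset.filter_eq_empty_iff]
        intro i hi h
        have := (hS i hi).2
        norm_num at h
        linarith
      rw [h0]
      simp
    | succ J ih =>
      have hsplit : ∑ i ∈ S with d i ≤ 2 ^ (J + 1) * lam, m i * ((d i) ^ k)⁻¹ =
          ∑ i ∈ (S.filter (fun i => d i ≤ 2 ^ (J + 1) * lam)).filter (fun i => d i ≤ 2 ^ J * lam), m i * ((d i) ^ k)⁻¹ +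
          ∑ i ∈ (S.filter (fun i => d i ≤ 2 ^ (J + 1) * lam)).filter (fun i => ¬ d i ≤ 2 ^ J * lam), m i * ((d i) ^ k)⁻¹ :=
        (Finset.sum_filter_add_sum_filter_not _ _ _).symm
      have hpJ : (0 : ℝ) < 2 ^ J := by positivity
      have h1 : (S.filter (fun i => d i ≤ 2 ^ (J + 1) * lam)).filter (fun i => d i ≤ 2 ^ J * lam) = S.filter (fun i => d i ≤ 2 ^ J * lam) := by
        ext i
        simp only [Finset.mem_filter]
        constructor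
        · rintro ⟨⟨a, _⟩, b⟩
          exact ⟨a, b⟩
        · rintro ⟨a, b⟩
          refine ⟨⟨a, b.trans ?_⟩, b⟩
          rw [pow_succ]
          nlinarith
      have hpos : 0 < 2 ^ J * lam := by positivity
      have h2 : ∑ i ∈ (S.filter (fun i => d i ≤ 2 ^ (J + 1) * lam)).filter (fun i => ¬ d i ≤ 2 ^ J * lam), m i * ((d i) ^ k)⁻¹ ≤
          A * (2 ^ (J + 1) * lam) * ((2 ^ J * lam) ^ k)⁻¹ := by
        calc ∑ i ∈ (S.filter (fun i => d i ≤ 2 ^ (J + 1) * lam)).filter (fun i => ¬ d i ≤ 2 ^ J * lam), m i * ((d i) ^ k)⁻¹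
            ≤ ∑ i ∈ (S.filter (fun i => d i ≤ 2 ^ (J + 1) * lam)).filter (fun i => ¬ d i ≤ 2 ^ J * lam), m i * ((2 ^ J * lam) ^ k)⁻¹ := by
              refine Finset.sum_le_sum fun i hi => ?_
              obtain ⟨h3, h4⟩ := Finset.mem_filter.1 hi
              have h5 := (hS i (Finset.mem_filter.1 h3).1).1
              push Not at h4
              refine mul_le_mul_of_nonneg_left ?_ h5
              exact inv_anti₀ (by positivity) (pow_le_pow_left₀ hpos.le h4.le k)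
          _ ≤ ∑ i ∈ S.filter (fun i => d i ≤ 2 ^ (J + 1) * lam), m i * ((2 ^ J * lam) ^ k)⁻¹ := by
              refine Finset.sum_le_sum_of_subset_of_nonneg (Finset.filter_subset _ _) fun i hi _ => ?_
              have h5 := (hS i (Finset.mem_filter.1 hi).1).1
              positivity
          _ = (∑ i ∈ S.filter (fun i => d i ≤ 2 ^ (J + 1) * lam), m i) * ((2 ^ J * lam) ^ k)⁻¹ := by rw [Finset.sum_mul]
          _ ≤ _ := by
              refine mul_le_mul_of_nonneg_right (hx _ ?_) (by positivity)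
              have : (1 : ℝ) ≤ 2 ^ (J + 1) := one_le_pow₀ (by norm_num)
              nlinarith
      rw [hsplit, h1]
      have h3 := TLS_step hk hl J
      have h4 : A * (2 ^ (J + 1) * lam) * ((2 ^ J * lam) ^ k)⁻¹ ≤ A * (2 * (1 / 2 : ℝ) ^ J * (lam * (lam ^ k)⁻¹)) := by
        calc A * (2 ^ (J + 1) * lam) * ((2 ^ J * lam) ^ k)⁻¹ = A * (((2 ^ J * lam) ^ k)⁻¹ * (2 ^ (J + 1) * lam)) := by ring
          _ ≤ _ := mul_le_mul_of_nonneg_left h3 hA
      have h5 : A * (lam * (lam ^ k)⁻¹) * (4 - 4 * (1 / 2 : ℝ) ^ J) + A * (2 * (1 / 2 : ℝ) ^ J * (lam * (lam ^ k)⁻¹)) = A * (lam * (lam ^ k)⁻¹) * (4 - 4 * (1 / 2 : ℝ) ^ (J + 1)) := by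
        rw [pow_succ]
        ring
      linarith
  obtain ⟨J, hJ⟩ : ∃ J : ℕ, ∀ i ∈ S, d i ≤ 2 ^ J * lam := by
    obtain ⟨J, hJ⟩ := pow_unbounded_of_one_lt ((∑ i ∈ S, |d i|) / lam) (show (1 : ℝ) < 2 by norm_num)
    refine ⟨J, fun i hi => ?_⟩
    rw [div_lt_iff₀ hl] at hJ
    have h1 : |d i| ≤ ∑ i ∈ S, |d i| := Finset.single_le_sum (f := fun i => |d i|) (fun i _ => abs_nonneg _) hi
    exact ((le_abs_self _).trans h1).trans hJ.le
  have h1 := key J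
  rw [Finset.filter_true_of_mem hJ] at h1
  refine h1.trans ?_
  have h2 : (0 : ℝ) ≤ (1 / 2 : ℝ) ^ J := by positivity
  have h3 : 0 ≤ A * (lam * (lam ^ k)⁻¹) := by positivity
  have h4 : A * (lam * (lam ^ k)⁻¹) * (4 - 4 * (1 / 2 : ℝ) ^ J) ≤ A * (lam * (lam ^ k)⁻¹) * 4 := mul_le_mul_of_nonneg_left (by linarith) h3
  calc _ ≤ _ := h4
    _ = 4 * A * lam * (lam ^ k)⁻¹ := by ring

end Pool.Agent.TWG
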