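import Pool.Agent.helper40.TW.SpecG
import Pool.Agent.helper38.BA.Spec

set_option autoImplicit false

open Complex MeasureTheory Metric
open scoped ComplexConjugate ArithmeticFunction.vonMangoldt

namespace Pool.Agent.TWG

open Pool.Agent.helper6.LD (wt)
open Pool.Agent.helper85.BVP (ex)
open Pool.Agent.TW (Win Pw)

theorem PRW_disj (a b : ℕ) : ((Finset.Ico a b : Finset ℕ) : Set ℕ).PairwiseDisjoint (fun m => (Finset.Ioo (m ^ 3) ((m + 1) ^ 3)).filter Nat.Prime) := by
  intro m _ m' _ hmm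
  show Disjoint _ _
  rw [Finset.disjoint_left]
  intro p hp hp'
  have h1 := Finset.mem_Ioo.1 (Finset.mem_filter.1 hp).1
  have h2 := Finset.mem_Ioo.1 (Finset.mem_filter.1 hp').1
  rcases lt_or_gt_of_ne hmm with h | h
  · have h3 : (m + 1) ^ 3 ≤ m' ^ 3 := Nat.pow_le_pow_left h 3
    omega
  · have h3 : (m' + 1) ^ 3 ≤ m ^ 3 := Nat.pow_le_pow_left h 3
    omega

theorem PRW (hPW : Pool.Agent.BA.PW_stmt) : PRW_stmt := by
  obtain ⟨c, hc, N₁, hN₁⟩ := hPW
  refine ⟨c / 2, by positivity, ?_⟩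
  intro k hk
  refine ⟨max N₁ 12, ?_⟩
  intro N hN u₀ h hu hh
  classical
  have hN12 : 12 ≤ N := (le_max_right _ _).trans hN
  have hNN : N₁ ≤ N := (le_max_left _ _).trans hN
  have hNr : (12 : ℝ) ≤ N := by exact_mod_cast hN12
  have hN0 : (0 : ℝ) < N := by linarith
  set t : ℝ := ((N : ℝ) ^ k) ^ ((1 : ℝ) / 3) with ht
  have hNk : (0 : ℝ) < (N : ℝ) ^ k := by positivity
  have ht0 : 0 < t := Real.rpow_pos_of_pos hNk _
  have ht3 : t ^ 3 = (N : ℝ) ^ k := by
    rw [ht, ← Real.rpow_natCast, ← Real.rpow_mul hNk.le]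
    norm_num
  have htN : (N : ℝ) ^ 2 ≤ t := by
    by_contra hcon
    push Not at hcon
    have h1 : t ^ 3 < ((N : ℝ) ^ 2) ^ 3 := pow_lt_pow_left₀ hcon ht0.le (by norm_num)
    rw [ht3, ← pow_mul] at h1
    have h2 : (N : ℝ) ^ (2 * 3) ≤ (N : ℝ) ^ k := pow_le_pow_right₀ (by linarith) (by omega)
    linarith
  set α : ℝ := t * Real.exp (1 / (6 * N)) with hα
  set β : ℝ := t * Real.exp (1 / (2 * N)) with hβ
  have hα0 : 0 < α := by positivity
  have hβ0 : 0 < β := by positivity
  have hα3 : α ^ 3 = (N : ℝ) ^ k * Real.exp (1 / (2 * N)) := by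
    rw [hα, mul_pow, ht3, ← Real.exp_nat_mul]
    congr 2
    push_cast
    field_simp
    norm_num
  have hβ3 : β ^ 3 = (N : ℝ) ^ k * Real.exp (3 / (2 * N)) := by
    rw [hβ, mul_pow, ht3, ← Real.exp_nat_mul]
    congr 2
    push_cast
    field_simp
  have htα : t ≤ α := by
    rw [hα]
    have : 1 ≤ Real.exp (1 / (6 * (N : ℝ))) := Real.one_le_exp (by positivity)
    nlinarith
  have hdiff : t / (3 * N) ≤ β - α := by
    have h1 : Real.exp (1 / (2 * (N : ℝ))) = Real.exp (1 / (6 * N)) * Real.exp (1 / (3 * N)) := by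
      rw [← Real.exp_add]
      congr 1
      field_simp
      norm_num
    have h2 : 1 + 1 / (3 * (N : ℝ)) ≤ Real.exp (1 / (3 * N)) := by
      have := Real.add_one_le_exp (1 / (3 * (N : ℝ)))
      linarith
    have h3 : 1 ≤ Real.exp (1 / (6 * (N : ℝ))) := Real.one_le_exp (by positivity)
    have h4 : β - α = t * (Real.exp (1 / (6 * N)) * (Real.exp (1 / (3 * N)) - 1)) := by
      rw [hβ, hα, h1]
      ring
    rw [h4]
    have h5 : (1 : ℝ) / (3 * N) ≤ Real.exp (1 / (6 * N)) * (Real.exp (1 / (3 * N)) - 1) := by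
      have h6 : (0 : ℝ) ≤ 1 / (3 * N) := by positivity
      nlinarith
    calc t / (3 * N) = t * (1 / (3 * N)) := by ring
      _ ≤ _ := mul_le_mul_of_nonneg_left h5 ht0.le
  set a : ℕ := ⌈α⌉₊ with ha
  set b : ℕ := ⌊β⌋₊ with hb
  have ha1 : α ≤ a := Nat.le_ceil α
  have ha2 : (a : ℝ) < α + 1 := Nat.ceil_lt_add_one hα0.le
  have hb1 : (b : ℝ) ≤ β := Nat.floor_le hβ0.le
  have hb2 : β < b + 1 := Nat.lt_floor_add_one β
  have ht12 : 12 * (N : ℝ) ≤ t := by nlinarith
  have hcount : t / (6 * N) ≤ (b : ℝ) - a := by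
    have h1 : t / (3 * N) - t / (6 * N) = t / (6 * N) := by
      field_simp
      norm_num
    have h2 : 2 ≤ t / (6 * N) := by
      rw [le_div_iff₀ (by positivity)]
      linarith
    linarith
  have hab : a ≤ b := by
    have h1 : 0 ≤ t / (6 * N) := by positivity
    have h2 : (a : ℝ) ≤ b := by linarith
    exact_mod_cast h2
  have hu0 : u₀ - h / 2 = k * Real.log N + 1 / (2 * N) := by
    rw [hu, hh]
    field_simp
    ring
  have hu1 : u₀ + h / 2 = k * Real.log N + 3 / (2 * N) := by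
    rw [hu, hh]
    field_simp
    ring
  -- the intervals are contained in the set
  have hsub : (Finset.Ico a b).biUnion (fun m => (Finset.Ioo (m ^ 3) ((m + 1) ^ 3)).filter Nat.Prime) ⊆
      (Win k N).filter (fun p : ℕ => p.Prime ∧ |Real.log p - u₀| ≤ h / 2) := by
    intro p hp
    obtain ⟨m, hm, hp⟩ := Finset.mem_biUnion.1 hp
    obtain ⟨hp1, hpp⟩ := Finset.mem_filter.1 hp
    obtain ⟨hm1, hm2⟩ := Finset.mem_Ico.1 hm
    obtain ⟨hp1, hp2⟩ := Finset.mem_Ioo.1 hp1
    have hmα : α ≤ m := ha1.trans (by exact_mod_cast hm1)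
    have hmβ : (m : ℝ) + 1 ≤ β := by
      have : ((m + 1 : ℕ) : ℝ) ≤ b := by exact_mod_cast hm2
      push_cast at this
      linarith
    have hpr1 : α ^ 3 < (p : ℝ) := by
      have h1 : ((m ^ 3 : ℕ) : ℝ) < p := by exact_mod_cast hp1
      push_cast at h1
      exact lt_of_le_of_lt (pow_le_pow_left₀ hα0.le hmα 3) h1
    have hpr2 : (p : ℝ) < β ^ 3 := by
      have h1 : (p : ℝ) < (((m + 1) ^ 3 : ℕ) : ℝ) := by exact_mod_cast hp2
      push_cast at h1
      exact lt_of_lt_of_le h1 (pow_le_pow_left₀ (by positivity) hmβ 3)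
    have hp0 : (0 : ℝ) < p := lt_trans (by positivity) hpr1
    have hlog1 : k * Real.log N + 1 / (2 * N) < Real.log p := by
      have h1 := Real.log_lt_log (by positivity) hpr1
      rw [hα3, Real.log_mul hNk.ne' (Real.exp_ne_zero _), Real.log_exp, Real.log_pow] at h1
      exact h1
    have hlog2 : Real.log p < k * Real.log N + 3 / (2 * N) := by
      have h1 := Real.log_lt_log hp0 hpr2
      rw [hβ3, Real.log_mul hNk.ne' (Real.exp_ne_zero _), Real.log_exp, Real.log_pow] at h1
      exact h1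
    rw [Finset.mem_filter]
    refine ⟨?_, hpp, ?_⟩
    · unfold Win
      rw [Finset.mem_Ioo]
      constructor
      · have h1 : (N : ℝ) ^ k < p := by
          refine lt_of_le_of_lt ?_ hpr1
          rw [hα3]
          have : 1 ≤ Real.exp (1 / (2 * (N : ℝ))) := Real.one_le_exp (by positivity)
          nlinarith
        exact_mod_cast h1
      · have h1 : (p : ℝ) < ((N : ℝ) + 1) ^ k := by
          rw [← Real.log_lt_log_iff hp0 (by positivity), Real.log_pow]
          have h2 : (1 : ℝ) / (N + 1) ≤ Real.log ((N + 1) / N) := by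
            have := Real.one_sub_inv_le_log_of_pos (show (0 : ℝ) < (N + 1) / N by positivity)
            rw [inv_div] at this
            have h3 : (1 : ℝ) - N / (N + 1) = 1 / (N + 1) := by
              field_simp
              ring
            linarith
          rw [Real.log_div (by positivity) hN0.ne'] at h2
          have hk6 : (6 : ℝ) ≤ k := by exact_mod_cast hk
          have h4 : (3 : ℝ) / (2 * N) ≤ k * (1 / (N + 1)) := by
            rw [div_le_iff₀ (by positivity), mul_one_div, div_mul_eq_mul_div, le_div_iff₀ (by positivity)]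
            nlinarith
          have h5 : (k : ℝ) * (1 / (N + 1)) ≤ k * (Real.log (N + 1) - Real.log N) := mul_le_mul_of_nonneg_left h2 (by positivity)
          nlinarith
        exact_mod_cast h1
    · rw [abs_le]
      constructor
      · linarith
      · linarith
  have hint : ∀ m ∈ Finset.Ico a b, 3 * c * t ^ 2 ≤ ∑ p ∈ (Finset.Ioo (m ^ 3) ((m + 1) ^ 3)).filter Nat.Prime, Real.log p := by
    intro m hm
    obtain ⟨hm1, hm2⟩ := Finset.mem_Ico.1 hm
    have hmt : t ≤ m := htα.trans (ha1.trans (by exact_mod_cast hm1))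
    have hmN : (N : ℝ) ≤ m := by nlinarith
    have hmN' : N ≤ m := by exact_mod_cast hmN
    have hm12 : (12 : ℝ) ≤ m := by linarith
    have hlm : 0 < Real.log m := Real.log_pos (by linarith)
    have h1 := hN₁ m (hNN.trans hmN')
    rw [div_le_iff₀ hlm] at h1
    have h2 : ∀ p ∈ (Finset.Ioo (m ^ 3) ((m + 1) ^ 3)).filter Nat.Prime, 3 * Real.log m ≤ Real.log p := by
      intro p hp
      have h3 := (Finset.mem_Ioo.1 (Finset.mem_filter.1 hp).1).1
      have h4 : ((m ^ 3 : ℕ) : ℝ) ≤ p := by exact_mod_cast h3.le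
      push_cast at h4
      have h5 := Real.log_le_log (by positivity) h4
      rw [Real.log_pow] at h5
      push_cast at h5
      exact h5
    have h3 := Finset.card_nsmul_le_sum _ _ _ h2
    rw [nsmul_eq_mul] at h3
    have h4 : c * t ^ 2 ≤ c * (m : ℝ) ^ 2 := mul_le_mul_of_nonneg_left (pow_le_pow_left₀ ht0.le hmt 2) hc.le
    nlinarith
  calc c / 2 * (N : ℝ) ^ (k - 1) = t / (6 * N) * (3 * c * t ^ 2) := by
        have h1 : t / (6 * N) * (3 * c * t ^ 2) = c / 2 * (t ^ 3 / N) := by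
          field_simp
          norm_num
        rw [h1, ht3]
        have h2 : (N : ℝ) ^ k = (N : ℝ) ^ (k - 1) * N := by
          rw [← pow_succ]
          congr 1
          omega
        rw [h2, mul_div_cancel_right₀ _ hN0.ne']
    _ ≤ ((b : ℝ) - a) * (3 * c * t ^ 2) := mul_le_mul_of_nonneg_right hcount (by positivity)
    _ = (Finset.Ico a b).card • (3 * c * t ^ 2) := by
        rw [Nat.card_Ico, nsmul_eq_mul, Nat.cast_sub hab]
    _ ≤ ∑ m ∈ Finset.Ico a b, ∑ p ∈ (Finset.Ioo (m ^ 3) ((m + 1) ^ 3)).filter Nat.Prime, Real.log p := Finset.card_nsmul_le_sum _ _ _ hint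
    _ = ∑ p ∈ (Finset.Ico a b).biUnion (fun m => (Finset.Ioo (m ^ 3) ((m + 1) ^ 3)).filter Nat.Prime), Real.log p := (Finset.sum_biUnion (PRW_disj a b)).symm
    _ ≤ _ := Finset.sum_le_sum_of_subset_of_nonneg hsub fun p _ _ => Real.log_natCast_nonneg p

end Pool.Agent.TWG
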